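import Pool.Agent.Helper54.S4.Stmts

set_option autoImplicit false

namespace Pool.Agent.Helper54.S4

open Finset Pool.Agent.Helper54.SP

lemma ad4_aex (N : ℕ) : aex N 2 0 = [N + 1] := by
  have h : apx N 2 = [N, N + 1] := by
    unfold apx
    simp [List.range_succ]
  unfold aex
  rw [h]
  simp

theorem st_AD4 (hADJ : Pool.Agent.Helper54.SP.ST_ADJ) (hOSP : Pool.Agent.Helper54.SP.ST_OSP) :
    ST_AD4 := by
  intro N X o p q r f g hnd ho hp hq hr hf hg hOf hOg
  have e5 : (5 : ℕ) = 3 + 2 := rfl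
  have lf : f.length + 1 = 5 := by
    rw [hf.length_eq]; rfl
  have lg : g.length + 1 = 5 := by
    rw [hg.length_eq]; rfl
  have h1 : OS 5 X (N + 2) [o, p, q, N + 1] := hOSP 5 X (N + 2) f _ hf lf hOf
  have h2 : OS 5 X (N + 2) [o, q, r, N + 1] := hOSP 5 X (N + 2) g _ hg lg hOg
  have k1 : OS (3 + 2) X (N + 2) ([o, p, q] ++ aex N 2 0) := by
    rw [ad4_aex]
    exact h1
  have k2 : OS (3 + 2) X (N + 2) ([o, q, r] ++ aex N 2 0) := by
    rw [ad4_aex]
    exact h2
  exact hADJ N 2 X 0 o p q r (by norm_num) hnd ho hp hq hr k1 k2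

end Pool.Agent.Helper54.S4
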