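import Pool.Agent.Helper54.S4.Stmts

/-!
Module SL1: slacks for one gate.
-/

namespace Pool.Agent.Helper54.S4

open Finset Pool.Agent.Helper54.SP

theorem sl1_core (G1 G2 : ℝ → ℝ) (h1 : Continuous G1) (h2 : Continuous G2) (p1 : 0 < G1 0)
    (p2 : G2 0 < 0) (b : ℝ) (hb : 0 < b) : ∃ a, 0 < a ∧ a < b ∧ 0 < G1 a ∧ G2 a < 0 := by
  have e1 : ∀ᶠ a in nhdsWithin (0 : ℝ) (Set.Ioi 0), 0 < G1 a :=
    (h1.continuousAt.eventually (lt_mem_nhds p1)).filter_mono nhdsWithin_le_nhds
  have e2 : ∀ᶠ a in nhdsWithin (0 : ℝ) (Set.Ioi 0), G2 a < 0 :=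
    (h2.continuousAt.eventually (gt_mem_nhds p2)).filter_mono nhdsWithin_le_nhds
  have e3 : ∀ᶠ a in nhdsWithin (0 : ℝ) (Set.Ioi 0), a < b :=
    (eventually_lt_nhds hb).filter_mono nhdsWithin_le_nhds
  have e4 : ∀ᶠ a in nhdsWithin (0 : ℝ) (Set.Ioi 0), 0 < a := self_mem_nhdsWithin
  obtain ⟨a, ha1, ha2, ha3, ha4⟩ := (e1.and (e2.and (e3.and e4))).exists
  exact ⟨a, ha4, ha3, ha1, ha2⟩

/-- the perturbation -/
noncomputable def sl1P (v : ℕ → ℝ) (o : ℕ) (s b a : ℝ) (i : ℕ) : ℝ :=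
  v i + s * (if i = o then b else if i % 2 = 1 then a else -a)

theorem sl1_odd (v : ℕ → ℝ) (a b : ℝ) (j : ℕ) (hj : j % 2 = 1) :
    (fun i => v i + (if pu j i then 1 else -1) * (if i = ou j then b else a)) =
      sl1P v (ou j) 1 b a := by
  funext i
  unfold sl1P pu
  by_cases h : i = ou j
  · simp [h, hj]
  · by_cases h2 : i % 2 = 1
    · have h3 : (i + j) % 2 = 0 := by omega
      simp [h, h2, h3]
    · have h3 : (i + j) % 2 ≠ 0 := by omega
      have h4 : (i + j) % 2 = 1 := by omega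
      simp [h, h2, h4]

theorem sl1_even (v : ℕ → ℝ) (a b : ℝ) (j : ℕ) (hj : j % 2 = 0) :
    (fun i => v i + (if pu j i then 1 else -1) * (if i = ou j then b else a)) =
      sl1P v (ou j) (-1) b a := by
  funext i
  unfold sl1P pu
  by_cases h : i = ou j
  · simp [h, hj]
  · by_cases h2 : i % 2 = 1
    · have h4 : (i + j) % 2 = 1 := by omega
      simp [h, h2, h4]
    · have h3 : (i + j) % 2 = 0 := by omega
      simp [h, h2, h3]

theorem sl1_cont0 (v : ℕ → ℝ) (s b : ℝ) :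
    Continuous (fun a => FG (sl1P v 0 s b a) - FF (sl1P v 0 s b a)) := by
  unfold FG FF sl1P
  norm_num
  fun_prop

theorem sl1_cont4 (v : ℕ → ℝ) (s b : ℝ) :
    Continuous (fun a => FG (sl1P v 4 s b a) - FF (sl1P v 4 s b a)) := by
  unfold FG FF sl1P
  norm_num
  fun_prop

theorem sl1_at0 (v : ℕ → ℝ) (hv : FF v = FG v) (s b : ℝ) :
    FG (sl1P v 0 s b 0) - FF (sl1P v 0 s b 0) =
      s * b * ((v 3 - v 2) * (v 5 - v 1) * (v 5 - v 4) - (v 2 - v 1) * (v 4 - v 2) * (v 5 - v 3)) := by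
  unfold FG FF at hv
  unfold FG FF sl1P
  norm_num
  linear_combination -hv

theorem sl1_at4 (v : ℕ → ℝ) (hv : FF v = FG v) (s b : ℝ) :
    FG (sl1P v 4 s b 0) - FF (sl1P v 4 s b 0) =
      s * b * ((v 2 - v 1) * (v 5 - v 0) * (v 5 - v 3) + (v 2 - v 0) * (v 3 - v 2) * (v 5 - v 1)) := by
  unfold FG FF at hv
  unfold FG FF sl1P
  norm_num
  linear_combination -hv

theorem st_SL1 : ST_SL1 := by
  intro v e hv hF u hu
  have h0 := hv 0 (by norm_num)
  have h1 := hv 1 (by norm_num)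
  have h2 := hv 2 (by norm_num)
  have h3 := hv 3 (by norm_num)
  have h4 := hv 4 (by norm_num)
  norm_num at h0 h1 h2 h3 h4
  have key : ∀ o : ℕ, (o = 0 ∨ o = 4) → ∃ a b : ℝ, 0 < a ∧ a < b ∧ b < u ∧
      0 < FG (sl1P v o 1 b a) - FF (sl1P v o 1 b a) ∧
      FG (sl1P v o (-1) b a) - FF (sl1P v o (-1) b a) < 0 := by
    intro o ho
    rcases ho with rfl | rfl
    · have hc : 0 < (v 3 - v 2) * (v 5 - v 1) * (v 5 - v 4) -
          (v 2 - v 1) * (v 4 - v 2) * (v 5 - v 3) := by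
        have q1 : 0 < (v 2 - v 1) * (v 4 - v 2) * (v 5 - v 3) := by
          apply mul_pos (mul_pos _ _) <;> linarith
        have q2 : (v 2 - v 0) * ((v 3 - v 2) * (v 5 - v 1) * (v 5 - v 4) -
            (v 2 - v 1) * (v 4 - v 2) * (v 5 - v 3)) =
            (v 5 - v 2) * ((v 2 - v 1) * (v 4 - v 2) * (v 5 - v 3)) := by
          unfold FF FG at hF
          linear_combination hF
        have q3 : 0 < (v 5 - v 2) * ((v 2 - v 1) * (v 4 - v 2) * (v 5 - v 3)) :=
          mul_pos (by linarith) q1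
        rw [← q2] at q3
        exact (mul_pos_iff_of_pos_left (by linarith)).1 q3
      obtain ⟨a, ha, hab, g1, g2⟩ := sl1_core _ _ (sl1_cont0 v 1 (u / 2)) (sl1_cont0 v (-1) (u / 2))
        (by
          beta_reduce
          rw [sl1_at0 v hF]
          have := mul_pos (half_pos hu) hc
          linarith)
        (by
          beta_reduce
          rw [sl1_at0 v hF]
          have := mul_pos (half_pos hu) hc
          linarith) (u / 2) (half_pos hu)
      exact ⟨a, u / 2, ha, hab, half_lt_self hu, g1, g2⟩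
    · have hc : 0 < (v 2 - v 1) * (v 5 - v 0) * (v 5 - v 3) +
          (v 2 - v 0) * (v 3 - v 2) * (v 5 - v 1) := by
        apply add_pos
        · apply mul_pos (mul_pos _ _) <;> linarith
        · apply mul_pos (mul_pos _ _) <;> linarith
      obtain ⟨a, ha, hab, g1, g2⟩ := sl1_core _ _ (sl1_cont4 v 1 (u / 2)) (sl1_cont4 v (-1) (u / 2))
        (by
          beta_reduce
          rw [sl1_at4 v hF]
          have := mul_pos (half_pos hu) hc
          linarith)
        (by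
          beta_reduce
          rw [sl1_at4 v hF]
          have := mul_pos (half_pos hu) hc
          linarith) (u / 2) (half_pos hu)
      exact ⟨a, u / 2, ha, hab, half_lt_self hu, g1, g2⟩
  by_cases he : e < 2
  · obtain ⟨o, ho, hoe⟩ : ∃ o : ℕ, (o = 0 ∨ o = 4) ∧ ∀ j, j % 4 / 2 = e → ou j = o := by
      interval_cases e
      · refine ⟨0, Or.inl rfl, fun j hj => ?_⟩
        unfold ou
        rw [if_pos (by omega)]
      · refine ⟨4, Or.inr rfl, fun j hj => ?_⟩
        unfold ou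
        rw [if_neg (by omega)]
    obtain ⟨a, b, ha, hab, hbu, g1, g2⟩ := key o ho
    refine ⟨a, b, ha, hab, hbu, fun j hj => ⟨fun hj1 => ?_, fun hj0 => ?_⟩⟩
    · rw [sl1_odd v a b j hj1, hoe j hj]
      linarith
    · rw [sl1_even v a b j hj0, hoe j hj]
      linarith
  · refine ⟨u / 3, u / 2, by linarith, by linarith, by linarith, fun j hj => ?_⟩
    exfalso
    omega

end Pool.Agent.Helper54.S4
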